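import Pool.Agent.Lib.MP_4fbe7c_an.WN.Base

/-!
Project WN, module LOW (helper18): the functional is at least its value at the steady state.
-/

set_option autoImplicit false

open Set MeasureTheory

namespace Pool.Agent.Lib.MP_4fbe7c_an.WN.H18

open Pool.Agent.Lib.MP_4fbe7c_an.UL Pool.Agent.Lib.MP_4fbe7c_an.ND
  Pool.Agent.Lib.MP_4fbe7c_an.WN

theorem Ph_ge (hPhi : PhiStatement) {n : ℕ} {K : ℝ} {κ : ℕ → ℝ} (h : Kap n K κ) {a b : ℝ}
    (ha : 0 ≤ a) (hb : 0 ≤ b) {r : ℕ → ℝ} (hr : 0 < r 0) : 3 / 2 ≤ Fh n κ a b r := by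
  have h1 := (hPhi.1 (r 0) hr).2.2.2.2.1
  have h2 : 0 ≤ hw (qv n r 0) / 2 * Nq n κ a b r :=
    mul_nonneg (half_pos (hw_pos _)).le (Nq_nonneg h ha hb r)
  have h3 := sq_nonneg (qv n r 1)
  unfold Fh
  linarith

theorem cont_qv {p : ℕ} {s : Set (Eu p)} {n : ℕ} {r : ℕ → Eu p → ℝ}
    (hr : ∀ i, i ≤ n → ContinuousOn (r i) s) (k : ℕ) :
    ContinuousOn (fun x => qv n (fun i => r i x) k) s := by
  unfold qv
  exact continuousOn_finsetSum _ fun i hi => hr i (by have := (Finset.mem_Ico.mp hi).2; omega)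

theorem cont_Nq {p : ℕ} {s : Set (Eu p)} {n : ℕ} {r : ℕ → Eu p → ℝ} (κ : ℕ → ℝ) (a b : ℝ)
    (hr : ∀ i, i ≤ n → ContinuousOn (r i) s) :
    ContinuousOn (fun x => Nq n κ a b (fun i => r i x)) s := by
  unfold Nq
  exact (continuousOn_const.mul ((cont_qv hr 1).pow 2)).add (continuousOn_const.mul
    (continuousOn_finsetSum _ fun k _ => continuousOn_const.mul ((cont_qv hr k).pow 2)))

theorem cont_hw : Continuous hw := by
  unfold hw
  fun_prop

theorem cont_Fh (hPhi : PhiStatement) {p : ℕ} {s : Set (Eu p)} {n : ℕ} {r : ℕ → Eu p → ℝ}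
    (κ : ℕ → ℝ) (a b : ℝ) (hr : ∀ i, i ≤ n → ContinuousOn (r i) s)
    (h0 : ∀ x ∈ s, 0 < r 0 x) :
    ContinuousOn (fun x => Fh n κ a b (fun i => r i x)) s := by
  unfold Fh
  have c1 : ContinuousOn (fun x => Ph (r 0 x)) s := by
    intro x hx
    have h1 := (hPhi.1 (r 0 x) (h0 x hx)).1.continuousAt
    exact ContinuousAt.comp_continuousWithinAt (g := Ph) h1 (hr 0 (Nat.zero_le n) x hx)
  exact (c1.add (((cont_qv hr 1).pow 2).div_const 2)).add
    (((cont_hw.comp_continuousOn (cont_qv hr 0)).div_const 2).mul (cont_Nq κ a b hr))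

/-- LOW. -/
theorem low_st (hPhi : PhiStatement) : LowWStatement := by
  intro p Ω q m θ θ' θ'' n ρ f hΩ hW hθ hf
  have cθ : ContinuousOn θ (closure Ω) := hθ.c2.toC1.c0
  have cf : ∀ i, i ≤ n → ContinuousOn (fun x => f i x / θ x) (closure Ω) := fun i hi =>
    (hf i hi).1.div cθ fun x hx => (hθ.pos x hx).ne'
  have p0 : ∀ x ∈ closure Ω, 0 < f 0 x / θ x := fun x hx =>
    div_pos ((hf 0 (Nat.zero_le n)).2 x hx) (hθ.pos x hx)
  have hK := hW.kap
  have c1 : ContinuousOn (fun x => θ x ^ 2 * (3 / 2 : ℝ)) (closure Ω) :=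
    (cθ.pow 2).mul continuousOn_const
  have c2 : ContinuousOn (fun x => θ x ^ 2 * Fh n (kr ρ) (wa (Kr ρ)) (wb (Kr ρ))
      (fun i => f i x / θ x)) (closure Ω) :=
    (cθ.pow 2).mul (cont_Fh hPhi (r := fun i x => f i x / θ x) (kr ρ) _ _ cf p0)
  unfold FuWE FuW
  refine setIntegral_mono_on (hΩ.integrableOn c1) (hΩ.integrableOn c2) hΩ.measurableSet ?_
  intro x hx'
  have hx : x ∈ closure Ω := subset_closure hx'
  exact mul_le_mul_of_nonneg_left
    (Ph_ge hPhi hK (wa_pos hK.nn).le (wb_nonneg _) (r := fun i => f i x / θ x) (p0 x hx))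
    (sq_nonneg _)

end Pool.Agent.Lib.MP_4fbe7c_an.WN.H18
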